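import Pool.Agent.Helper39.AG.Stable

/-!
# AG front end: over every edge there is an empty triangle with a vertex as apex
-/

set_option autoImplicit false

open Filter Topology

namespace Pool.Agent.Helper39.AG

theorem eventually_carrier' {N : Net} {x y p0 : Pt} {Q : Pt → Prop}
    (h : ∀ a b, N.E a b → ∀ᶠ p in 𝓝 p0, Q p → Disjoint (oTri x y p) (segment ℝ a b)) :
    ∀ᶠ p in 𝓝 p0, Q p → Disjoint (oTri x y p) N.carrier := by
  have h1 : ∀ᶠ p in 𝓝 p0, ∀ e ∈ {e : Pt × Pt | N.E e.1 e.2}, Q p → Disjoint (oTri x y p) (segment ℝ e.1 e.2) := by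
    rw [Filter.eventually_all_finite N.finite_E]
    intro e he
    exact h e.1 e.2 he
  filter_upwards [h1] with p hp hQ
  rw [Set.disjoint_left]
  rintro q hq ⟨a, b, hab, hs⟩
  exact Set.disjoint_left.1 (hp (a, b) hab hQ) hq hs

theorem isClosed_disjoint (x y : Pt) (s : Set Pt) : IsClosed {p : Pt | Disjoint (oTri x y p) s} := by
  rw [← isOpen_compl_iff]
  have : {p : Pt | Disjoint (oTri x y p) s}ᶜ = ⋃ q ∈ s, {p : Pt | q ∈ oTri x y p} := by
    ext p
    simp only [Set.mem_compl_iff, Set.mem_ofPred_eq, Set.mem_iUnion, exists_prop, Set.not_disjoint_iff]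
    constructor
    · rintro ⟨q, h1, h2⟩; exact ⟨q, h2, h1⟩
    · rintro ⟨q, h1, h2⟩; exact ⟨q, h2, h1⟩
  rw [this]
  apply isOpen_biUnion
  intro q _
  have h2 : IsOpen {p : Pt | 0 < cr y p q} :=
    isOpen_lt continuous_const (continuous_cr continuous_const continuous_id continuous_const)
  have h3 : IsOpen {p : Pt | 0 < cr p x q} :=
    isOpen_lt continuous_const (continuous_cr continuous_id continuous_const continuous_const)
  have h1 : IsOpen {_p : Pt | 0 < cr x y q} := isOpen_const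
  exact h1.inter (h2.inter h3)

/-- the coordinate along `x y` -/
def gg (x y p : Pt) : ℝ := (p.1 - x.1) * (y.1 - x.1) + (p.2 - x.2) * (y.2 - x.2)

theorem continuous_gg (x y : Pt) : Continuous (gg x y) := by unfold gg; fun_prop

theorem oTri_mono {x y p z : Pt} (hp : 0 < cr x y p) (hz : z ∈ cTri x y p) (hz0 : 0 < cr x y z) :
    oTri x y z ⊆ oTri x y p := by
  intro q hq
  have hb := bary x y z q hz0.ne'
  have hs := bary_sum x y z q hz0.ne'
  have e1 : 0 < cr y z q / cr x y z := div_pos hq.2.1 hz0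
  have e2 : 0 < cr z x q / cr x y z := div_pos hq.2.2 hz0
  have e3 : 0 < cr x y q / cr x y z := div_pos hq.1 hz0
  refine ⟨hq.1, ?_, ?_⟩
  · rw [hb, cr_comb3 _ _ _ _ _ _ _ _ hs, cr_self_mid, cr_cyc x y p]
    have h1 := mul_pos e1 hp
    have h2 := mul_nonneg e3.le hz.2.1
    linarith
  · rw [hb, cr_comb3 _ _ _ _ _ _ _ _ hs, cr_self_right, cr_cyc' x y p]
    have h1 := mul_pos e2 hp
    have h2 := mul_nonneg e3.le hz.2.2
    linarith

theorem cTri_mono {x y p z : Pt} (hp : 0 < cr x y p) (hz : z ∈ cTri x y p) (hz0 : 0 < cr x y z) :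
    cTri x y z ⊆ cTri x y p := by
  rw [cTri_eq_hull hz0]
  apply convexHull_min _ (convex_cTri _ _ _)
  intro w hw
  simp only [Set.mem_insert_iff, Set.mem_singleton_iff] at hw
  rcases hw with rfl | rfl | rfl
  · exact left_mem_cTri hp.le
  · exact mid_mem_cTri hp.le
  · exact hz

theorem ell_sub (x y a b : Pt) (ε : ℝ) :
    (cr x y b + ε * gg x y b) - (cr x y a + ε * gg x y a) =
      ((y.1 - x.1) * (b.2 - a.2) - (y.2 - x.2) * (b.1 - a.1)) +
        ε * ((b.1 - a.1) * (y.1 - x.1) + (b.2 - a.2) * (y.2 - x.2)) := by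
  simp only [cr_def, gg]; ring

theorem exists_eps {N : Net} {x y : Pt} (hxy : x ≠ y) {ε0 : ℝ} (hε0 : 0 < ε0) :
    ∃ ε : ℝ, 0 < ε ∧ ε < ε0 ∧ ∀ a b, N.E a b → cr x y a + ε * gg x y a ≠ cr x y b + ε * gg x y b := by
  classical
  have hfin : ((fun e : Pt × Pt => -((y.1 - x.1) * (e.2.2 - e.1.2) - (y.2 - x.2) * (e.2.1 - e.1.1)) /
      ((e.2.1 - e.1.1) * (y.1 - x.1) + (e.2.2 - e.1.2) * (y.2 - x.2))) '' {e : Pt × Pt | N.E e.1 e.2}).Finite :=
    N.finite_E.image _
  obtain ⟨ε, hε⟩ := ((Set.Ioo_infinite hε0).sdiff hfin).nonempty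
  refine ⟨ε, hε.1.1, hε.1.2, ?_⟩
  intro a b hab hcon
  apply hε.2
  refine ⟨(a, b), hab, ?_⟩
  have h1 := ell_sub x y a b ε
  rw [hcon, sub_self] at h1
  simp only
  set c := (y.1 - x.1) * (b.2 - a.2) - (y.2 - x.2) * (b.1 - a.1) with hc
  set d := (b.1 - a.1) * (y.1 - x.1) + (b.2 - a.2) * (y.2 - x.2) with hd
  by_cases hd0 : d = 0
  · exfalso
    rw [hd0, mul_zero, add_zero] at h1
    have h2 : c ^ 2 + d ^ 2 = ((y.1 - x.1) ^ 2 + (y.2 - x.2) ^ 2) * ((b.1 - a.1) ^ 2 + (b.2 - a.2) ^ 2) := by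
      rw [hc, hd]; ring
    rw [← h1, hd0] at h2
    have h3 : (y.1 - x.1) ^ 2 + (y.2 - x.2) ^ 2 ≠ 0 := by
      intro h
      apply hxy
      have h4 : (y.1 - x.1) ^ 2 = 0 := by nlinarith [sq_nonneg (y.1 - x.1), sq_nonneg (y.2 - x.2)]
      have h5 : (y.2 - x.2) ^ 2 = 0 := by nlinarith [sq_nonneg (y.1 - x.1), sq_nonneg (y.2 - x.2)]
      have h6 := pow_eq_zero_iff (two_ne_zero) |>.1 h4
      have h7 := pow_eq_zero_iff (two_ne_zero) |>.1 h5
      ext <;> linarith
    have h4 : (b.1 - a.1) ^ 2 + (b.2 - a.2) ^ 2 ≠ 0 := by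
      intro h
      apply N.ne hab
      have h4 : (b.1 - a.1) ^ 2 = 0 := by nlinarith [sq_nonneg (b.1 - a.1), sq_nonneg (b.2 - a.2)]
      have h5 : (b.2 - a.2) ^ 2 = 0 := by nlinarith [sq_nonneg (b.1 - a.1), sq_nonneg (b.2 - a.2)]
      have h6 := pow_eq_zero_iff (two_ne_zero) |>.1 h4
      have h7 := pow_eq_zero_iff (two_ne_zero) |>.1 h5
      ext <;> linarith
    have := mul_ne_zero h3 h4
    apply this
    rw [← h2]; ring
  · rw [div_eq_iff hd0]; linarith

theorem tendsto_move (p u : Pt) : Tendsto (fun t : ℝ => p + t • u) (𝓝[>] 0) (𝓝 p) := by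
  have : Continuous fun t : ℝ => p + t • u := by fun_prop
  have h := this.tendsto 0
  simp only [zero_smul, add_zero] at h
  exact h.mono_left nhdsWithin_le_nhds

theorem apex_exists {N : Net} {x y p0 : Pt} {K : Set Pt} (hxy : N.E x y) (hK : IsCompact K)
    (h0 : 0 < cr x y p0) (hd0 : Disjoint (oTri x y p0) N.carrier)
    (hB : ∀ p, 0 < cr x y p → Disjoint (oTri x y p) N.carrier → p ∈ K) :
    ∃ z ∈ N.V, 0 < cr x y z ∧ Disjoint (oTri x y z) N.carrier ∧
      ∀ w ∈ N.V, w ∈ cTri x y z → w = z ∨ cr x y w = 0 := by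
  classical
  have hxy' := N.ne hxy
  -- choice of epsilon
  obtain ⟨M, hM⟩ : ∃ M : ℝ, ∀ p ∈ K, |gg x y p| ≤ M := by
    obtain ⟨M, hM⟩ := hK.exists_bound_of_continuousOn (continuous_gg x y).continuousOn
    exact ⟨M, fun p hp => by simpa using hM p hp⟩
  have hp0K : p0 ∈ K := hB p0 h0 hd0
  have hM0 : 0 ≤ M := (abs_nonneg _).trans (hM p0 hp0K)
  obtain ⟨ε, hε, hε1, hgen⟩ := exists_eps (N := N) hxy' (ε0 := cr x y p0 / (2 * (M + 1))) (by positivity)
  have hεM : 2 * (ε * M) < cr x y p0 := by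
    have h1 : ε * (2 * (M + 1)) < cr x y p0 := by
      rwa [lt_div_iff₀ (by positivity)] at hε1
    nlinarith
  set ℓ : Pt → ℝ := fun p => cr x y p + ε * gg x y p with hℓ
  have hℓc : Continuous ℓ :=
    (continuous_cr continuous_const continuous_const continuous_id).add (continuous_const.mul (continuous_gg x y))
  set Sb : Set Pt := K ∩ ({p | 0 ≤ cr x y p} ∩ {p | Disjoint (oTri x y p) N.carrier}) with hSb
  have hSc : IsCompact Sb := by
    apply hK.inter_right
    apply IsClosed.inter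
    · exact isClosed_le continuous_const (continuous_cr continuous_const continuous_const continuous_id)
    · exact isClosed_disjoint x y _
  obtain ⟨p, hpS, hmax⟩ := hSc.exists_isMaxOn ⟨p0, hp0K, h0.le, hd0⟩ hℓc.continuousOn
  have hmax' : ∀ q ∈ Sb, ℓ q ≤ ℓ p := fun q hq => hmax hq
  have hp : 0 < cr x y p := by
    have h1 := hmax' p0 ⟨hp0K, h0.le, hd0⟩
    simp only [hℓ] at h1
    have h2 := abs_le.1 (hM p0 hp0K)
    have h3 := abs_le.1 (hM p hpS.1)
    have h4 : ε * gg x y p ≤ ε * M := mul_le_mul_of_nonneg_left h3.2 hε.le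
    have h5 : ε * (-M) ≤ ε * gg x y p0 := mul_le_mul_of_nonneg_left h2.1 hε.le
    nlinarith
  have hdp : Disjoint (oTri x y p) N.carrier := hpS.2.2
  have hposev : ∀ᶠ q in 𝓝 p, 0 < cr x y q := by
    have hc : Continuous fun q => cr x y q := continuous_cr continuous_const continuous_const continuous_id
    exact hc.continuousAt.eventually (lt_mem_nhds hp)
  have hdseg : ∀ a b, N.E a b → Disjoint (oTri x y p) (segment ℝ a b) := by
    intro a b hab
    have hsub : segment ℝ a b ⊆ N.carrier := fun q hq => ⟨a, b, hab, hq⟩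
    exact Set.disjoint_of_subset_right hsub hdp
  -- a vertex in the closed triangle
  have hex : ∃ v ∈ N.V, v ∈ cTri x y p ∧ 0 < cr x y v := by
    by_contra hcon
    push Not at hcon
    have hpV : p ∉ N.V := fun hV => by
      have := hcon p hV (right_mem_cTri hp.le); linarith
    -- contradiction from a direction
    have contra : ∀ u : Pt, (∀ t : ℝ, ℓ (p + t • u) = ℓ p + t * (ℓ (p + u) - ℓ p)) → ℓ p < ℓ (p + u) →
        (∀ᶠ t : ℝ in 𝓝[>] 0, Disjoint (oTri x y (p + t • u)) N.carrier) → False := by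
      intro u hlin hlt hev
      have h1 := (tendsto_move p u).eventually hposev
      have h2 : ∀ᶠ t : ℝ in 𝓝[>] 0, 0 < t := eventually_mem_nhdsWithin
      obtain ⟨t, h1t, h2t, h3t⟩ := (h1.and (h2.and hev)).exists
      have h4 := hmax' (p + t • u) ⟨hB _ h1t h3t, le_of_lt h1t, h3t⟩
      rw [hlin t] at h4
      have := mul_pos h2t (sub_pos.2 hlt)
      linarith
    have hlin : ∀ (u : Pt) (t : ℝ), ℓ (p + t • u) = ℓ p + t * (ℓ (p + u) - ℓ p) := by
      intro u t
      simp only [hℓ, cr_def, gg, Prod.fst_add, Prod.smul_fst, smul_eq_mul, Prod.snd_add, Prod.smul_snd]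
      ring
    by_cases hpc : p ∈ N.carrier
    · obtain ⟨a, b, hab, hpab⟩ := hpc
      have hpo : p ∈ openSegment ℝ a b := by
        rw [← insert_endpoints_openSegment] at hpab
        rcases hpab with h | h | h
        · exact absurd (h ▸ N.mem hab) hpV
        · exact absurd (h ▸ N.mem' hab) hpV
        · exact h
      have hp0 : cr a b p = 0 := by
        obtain ⟨α, β, hα, hβ, hs, hpe⟩ := hpo
        rw [← hpe, cr_comb2 _ _ _ _ _ _ hs]; simp
      have hev : ∀ᶠ q in 𝓝 p, cr a b q = 0 → Disjoint (oTri x y q) N.carrier := by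
        apply eventually_carrier' (Q := fun q => cr a b q = 0)
        intro c d hcd
        by_cases hpcd : p ∈ segment ℝ c d
        · apply Eventually.of_forall
          intro q hq
          have h1 := stable_on_edge (N.ne hab) hp (hdseg a b hab) hpo hq
          rcases N.cross hab hcd (openSegment_subset_segment _ _ _ hpo) hpcd hpV with ⟨rfl, rfl⟩ | ⟨rfl, rfl⟩
          · exact h1
          · rwa [segment_symm] at h1
        · filter_upwards [stable_edge hxy hcd hp (hdseg c d hcd) hpcd hcon] with q hq _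
          exact hq
      have hne := hgen a b hab
      have hline : ∀ (s t : ℝ), cr a b (p + t • (s • (b - a))) = 0 := by
        intro s t
        have : cr a b (p + t • (s • (b - a))) = cr a b p := by
          simp only [cr_def, Prod.fst_add, Prod.smul_fst, smul_eq_mul, Prod.snd_add, Prod.smul_snd, Prod.fst_sub,
            Prod.snd_sub]
          ring
        rw [this, hp0]
      have hdiff : ∀ s : ℝ, ℓ (p + s • (b - a)) - ℓ p = s * (ℓ b - ℓ a) := by
        intro s
        simp only [hℓ, cr_def, gg, Prod.fst_add, Prod.smul_fst, smul_eq_mul, Prod.snd_add, Prod.smul_snd,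
          Prod.fst_sub, Prod.snd_sub]
        ring
      have hgo : ∀ s : ℝ, 0 < s * (ℓ b - ℓ a) → False := by
        intro s hs
        apply contra (s • (b - a)) (hlin _)
        · have := hdiff s; linarith
        · have h5 := (tendsto_move p (s • (b - a))).eventually hev
          filter_upwards [h5] with t ht
          exact ht (hline s t)
      rcases lt_or_gt_of_ne hne with h | h
      · exact hgo 1 (by simp only [hℓ]; linarith)
      · exact hgo (-1) (by simp only [hℓ]; linarith)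
    · have hev : ∀ᶠ q in 𝓝 p, Disjoint (oTri x y q) N.carrier := by
        apply eventually_carrier
        intro c d hcd
        exact stable_edge hxy hcd hp (hdseg c d hcd) (fun h => hpc ⟨c, d, hcd, h⟩) hcon
      apply contra (y - x) (hlin _)
      · have h5 : ℓ (p + (y - x)) - ℓ p = ε * ((y.1 - x.1) ^ 2 + (y.2 - x.2) ^ 2) := by
          simp only [hℓ, cr_def, gg, Prod.fst_add, Prod.snd_add, Prod.fst_sub, Prod.snd_sub]
          ring
        have h6 : 0 < (y.1 - x.1) ^ 2 + (y.2 - x.2) ^ 2 := by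
          by_contra h7
          push Not at h7
          have h8 := pow_eq_zero_iff (two_ne_zero) |>.1
            (show (y.1 - x.1) ^ 2 = 0 by nlinarith [sq_nonneg (y.1 - x.1), sq_nonneg (y.2 - x.2)])
          have h9 := pow_eq_zero_iff (two_ne_zero) |>.1
            (show (y.2 - x.2) ^ 2 = 0 by nlinarith [sq_nonneg (y.1 - x.1), sq_nonneg (y.2 - x.2)])
          apply hxy'
          ext <;> linarith
        have := mul_pos hε h6
        linarith
      · exact (tendsto_move p (y - x)).eventually hev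
  obtain ⟨v, hvV, hvT, hv0⟩ := hex
  obtain ⟨z, hz, hzmin⟩ := Finset.exists_min_image (N.V.filter fun v => v ∈ cTri x y p ∧ 0 < cr x y v)
    (fun v => cr x y v) ⟨v, by simp only [Finset.mem_filter]; exact ⟨hvV, hvT, hv0⟩⟩
  rw [Finset.mem_filter] at hz
  refine ⟨z, hz.1, hz.2.2, ?_, ?_⟩
  · exact Set.disjoint_of_subset_left (oTri_mono hp hz.2.1 hz.2.2) hdp
  · intro w hw hwT
    have hz0 := hz.2.2
    rcases eq_or_lt_of_le hwT.1 with h | h
    · right; exact h.symm
    · left
      have hwp := cTri_mono hp hz.2.1 hz0 hwT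
      have h1 := hzmin w (by rw [Finset.mem_filter]; exact ⟨hw, hwp, h⟩)
      have h2 := cr_add x y z w
      have h3 := hwT.2.1
      have h4 := hwT.2.2
      have h5 : cr x y w = cr x y z := by linarith
      have h6 : cr y z w = 0 := by linarith
      have h7 : cr z x w = 0 := by linarith
      have h8 := bary x y z w hz0.ne'
      rw [h5, h6, h7, div_self hz0.ne'] at h8
      simpa using h8

end Pool.Agent.Helper39.AG
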