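import Pool.Agent.Helper39.AG.Defs

/-!
# AG front end: elementary facts on cross products, open triangles and segments
-/

set_option autoImplicit false

namespace Pool.Agent.Helper39.AG

theorem cr_def (a b c : Pt) : cr a b c = (b.1 - a.1) * (c.2 - a.2) - (b.2 - a.2) * (c.1 - a.1) := rfl

theorem cr_cyc (a b c : Pt) : cr b c a = cr a b c := by simp only [cr_def]; ring
theorem cr_cyc' (a b c : Pt) : cr c a b = cr a b c := by simp only [cr_def]; ring
theorem cr_swap (a b c : Pt) : cr b a c = - cr a b c := by simp only [cr_def]; ring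
theorem cr_swap' (a b c : Pt) : cr a c b = - cr a b c := by simp only [cr_def]; ring
@[simp] theorem cr_self_left (a c : Pt) : cr a a c = 0 := by simp only [cr_def]; ring
@[simp] theorem cr_self_right (a b : Pt) : cr a b b = 0 := by simp only [cr_def]; ring
@[simp] theorem cr_self_mid (a b : Pt) : cr a b a = 0 := by simp only [cr_def]; ring

theorem cr_add (a b c p : Pt) : cr a b p + cr b c p + cr c a p = cr a b c := by
  simp only [cr_def]; ring

/-- `cr a b` is affine: values at a combination with total weight one -/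
theorem cr_comb3 (a b x y z : Pt) (α β γ : ℝ) (h : α + β + γ = 1) :
    cr a b (α • x + β • y + γ • z) = α * cr a b x + β * cr a b y + γ * cr a b z := by
  have : α = 1 - β - γ := by linarith
  subst this
  simp only [cr_def, Prod.fst_add, Prod.snd_add, Prod.smul_fst, Prod.smul_snd, smul_eq_mul]
  ring

theorem cr_comb2 (a b x y : Pt) (α β : ℝ) (h : α + β = 1) :
    cr a b (α • x + β • y) = α * cr a b x + β * cr a b y := by
  have : α = 1 - β := by linarith
  subst this
  simp only [cr_def, Prod.fst_add, Prod.snd_add, Prod.smul_fst, Prod.smul_snd, smul_eq_mul]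
  ring

/-- barycentric coordinates -/
theorem bary (a b c p : Pt) (h : cr a b c ≠ 0) :
    p = (cr b c p / cr a b c) • a + (cr c a p / cr a b c) • b + (cr a b p / cr a b c) • c := by
  have h' := h
  simp only [cr_def] at h' ⊢
  ext
  · simp only [Prod.fst_add, Prod.smul_fst, smul_eq_mul]
    field_simp
    ring
  · simp only [Prod.snd_add, Prod.smul_snd, smul_eq_mul]
    field_simp
    ring

theorem bary_sum (a b c p : Pt) (h : cr a b c ≠ 0) :
    cr b c p / cr a b c + cr c a p / cr a b c + cr a b p / cr a b c = 1 := by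
  rw [← add_div, ← add_div, div_eq_one_iff_eq h, ← cr_add a b c p]; ring

theorem continuous_cr {X : Type*} [TopologicalSpace X] {f g k : X → Pt} (hf : Continuous f) (hg : Continuous g)
    (hk : Continuous k) : Continuous (fun x => cr (f x) (g x) (k x)) := by
  unfold cr
  fun_prop

/-- the open triangle (empty unless `a b c` is positively oriented) -/
def oTri (a b c : Pt) : Set Pt := {p | 0 < cr a b p ∧ 0 < cr b c p ∧ 0 < cr c a p}

theorem mem_oTri {a b c p : Pt} : p ∈ oTri a b c ↔ 0 < cr a b p ∧ 0 < cr b c p ∧ 0 < cr c a p := Iff.rfl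

theorem oTri_cyc (a b c : Pt) : oTri b c a = oTri a b c := by
  ext p; simp only [mem_oTri]; tauto

theorem pos_of_mem_oTri {a b c p : Pt} (h : p ∈ oTri a b c) : 0 < cr a b c := by
  rw [← cr_add a b c p]; obtain ⟨h1, h2, h3⟩ := h; linarith

theorem isOpen_oTri (a b c : Pt) : IsOpen (oTri a b c) := by
  have h1 : IsOpen {p : Pt | 0 < cr a b p} :=
    isOpen_lt continuous_const (continuous_cr continuous_const continuous_const continuous_id)
  have h2 : IsOpen {p : Pt | 0 < cr b c p} :=
    isOpen_lt continuous_const (continuous_cr continuous_const continuous_const continuous_id)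
  have h3 : IsOpen {p : Pt | 0 < cr c a p} :=
    isOpen_lt continuous_const (continuous_cr continuous_const continuous_const continuous_id)
  exact h1.inter (h2.inter h3)

theorem convex_pos (a b : Pt) : Convex ℝ {p : Pt | 0 < cr a b p} := by
  intro p hp q hq α β hα hβ hαβ
  simp only [Set.mem_ofPred_eq] at hp hq ⊢
  rw [cr_comb2 _ _ _ _ _ _ hαβ]
  rcases eq_or_lt_of_le hα with h | h
  · subst h
    have : β = 1 := by linarith
    subst this; simpa using hq
  · have := mul_pos h hp
    have := mul_nonneg hβ hq.le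
    linarith

theorem convex_oTri (a b c : Pt) : Convex ℝ (oTri a b c) :=
  (convex_pos a b).inter ((convex_pos b c).inter (convex_pos c a))

/-- positive combinations are in the open triangle -/
theorem comb_mem_oTri {a b c : Pt} (h : 0 < cr a b c) {α β γ : ℝ} (hα : 0 < α) (hβ : 0 < β) (hγ : 0 < γ)
    (hs : α + β + γ = 1) : α • a + β • b + γ • c ∈ oTri a b c := by
  refine ⟨?_, ?_, ?_⟩
  · rw [cr_comb3 _ _ _ _ _ _ _ _ hs]; simp only [cr_self_mid, cr_self_right]; have := mul_pos hγ h; linarith
  · rw [cr_comb3 _ _ _ _ _ _ _ _ hs]; simp only [cr_self_mid, cr_self_right, cr_cyc]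
    have := mul_pos hα h; linarith
  · rw [cr_comb3 _ _ _ _ _ _ _ _ hs]; simp only [cr_self_mid, cr_self_right, cr_cyc']
    have := mul_pos hβ h; linarith

/-- the closed triangle -/
def cTri (a b c : Pt) : Set Pt := {p | 0 ≤ cr a b p ∧ 0 ≤ cr b c p ∧ 0 ≤ cr c a p}

theorem mem_cTri {a b c p : Pt} : p ∈ cTri a b c ↔ 0 ≤ cr a b p ∧ 0 ≤ cr b c p ∧ 0 ≤ cr c a p := Iff.rfl

theorem cTri_cyc (a b c : Pt) : cTri b c a = cTri a b c := by
  ext p; simp only [mem_cTri]; tauto

theorem isClosed_cTri (a b c : Pt) : IsClosed (cTri a b c) := by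
  have h1 : IsClosed {p : Pt | 0 ≤ cr a b p} :=
    isClosed_le continuous_const (continuous_cr continuous_const continuous_const continuous_id)
  have h2 : IsClosed {p : Pt | 0 ≤ cr b c p} :=
    isClosed_le continuous_const (continuous_cr continuous_const continuous_const continuous_id)
  have h3 : IsClosed {p : Pt | 0 ≤ cr c a p} :=
    isClosed_le continuous_const (continuous_cr continuous_const continuous_const continuous_id)
  exact h1.inter (h2.inter h3)

theorem convex_nonneg (a b : Pt) : Convex ℝ {p : Pt | 0 ≤ cr a b p} := by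
  intro p hp q hq α β hα hβ hαβ
  simp only [Set.mem_ofPred_eq] at hp hq ⊢
  rw [cr_comb2 _ _ _ _ _ _ hαβ]
  have := mul_nonneg hα hp
  have := mul_nonneg hβ hq
  linarith

theorem convex_cTri (a b c : Pt) : Convex ℝ (cTri a b c) :=
  (convex_nonneg a b).inter ((convex_nonneg b c).inter (convex_nonneg c a))

theorem oTri_subset_cTri (a b c : Pt) : oTri a b c ⊆ cTri a b c :=
  fun _ h => ⟨h.1.le, h.2.1.le, h.2.2.le⟩

theorem left_mem_cTri {a b c : Pt} (h : 0 ≤ cr a b c) : a ∈ cTri a b c := by
  refine ⟨by simp, ?_, by simp⟩; rw [cr_cyc]; exact h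

theorem mid_mem_cTri {a b c : Pt} (h : 0 ≤ cr a b c) : b ∈ cTri a b c := by
  refine ⟨by simp, by simp, ?_⟩; rw [cr_cyc']; exact h

theorem right_mem_cTri {a b c : Pt} (h : 0 ≤ cr a b c) : c ∈ cTri a b c :=
  ⟨h, by simp, by simp⟩

theorem comb3_mem {s : Set Pt} (hs : Convex ℝ s) {x y z : Pt} (hx : x ∈ s) (hy : y ∈ s) (hz : z ∈ s)
    {α β γ : ℝ} (hα : 0 ≤ α) (hβ : 0 ≤ β) (hγ : 0 ≤ γ) (h : α + β + γ = 1) :
    α • x + β • y + γ • z ∈ s := by
  have := hs.sum_mem (t := Finset.univ) (w := ![α, β, γ]) (z := ![x, y, z]) ?_ ?_ ?_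
  · simpa [Fin.sum_univ_three] using this
  · intro i _; fin_cases i <;> simp [hα, hβ, hγ]
  · simpa [Fin.sum_univ_three] using h
  · intro i _; fin_cases i <;> simp [hx, hy, hz]

/-- the closed triangle as a convex hull -/
theorem cTri_eq_hull {a b c : Pt} (h : 0 < cr a b c) : cTri a b c = convexHull ℝ {a, b, c} := by
  apply Set.Subset.antisymm
  · intro p hp
    have hb := bary a b c p h.ne'
    have hs := bary_sum a b c p h.ne'
    obtain ⟨h1, h2, h3⟩ := hp
    rw [hb]
    have hc := convex_convexHull ℝ ({a, b, c} : Set Pt)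
    have ha' : a ∈ convexHull ℝ ({a, b, c} : Set Pt) := subset_convexHull ℝ _ (by simp)
    have hb' : b ∈ convexHull ℝ ({a, b, c} : Set Pt) := subset_convexHull ℝ _ (by simp)
    have hc' : c ∈ convexHull ℝ ({a, b, c} : Set Pt) := subset_convexHull ℝ _ (by simp)
    exact comb3_mem hc ha' hb' hc' (div_nonneg h2 h.le) (div_nonneg h3 h.le) (div_nonneg h1 h.le) hs
  · apply convexHull_min _ (convex_cTri a b c)
    intro p hp
    simp only [Set.mem_insert_iff, Set.mem_singleton_iff] at hp
    rcases hp with rfl | rfl | rfl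
    · exact left_mem_cTri h.le
    · exact mid_mem_cTri h.le
    · exact right_mem_cTri h.le

end Pool.Agent.Helper39.AG
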