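import Mathlib

/-!
# Project AG (MP_586e8d_co): geometric front end, definitions

* `Pt`: the plane `ℝ × ℝ`;
* `SimplePolygon`: a simple polygon with `m + 3` vertices;
* `IsRegion C Q`: `Q` is the closed region bounded by the simple polygon `C`
  (compact, closure of its interior, frontier = the polygonal curve);
* `PolygonWithHoles h`, its point set `P`, its number of vertices `n`;
* `IsTri V S P T`: `T` is a triangulation of `P` with vertex set `V` and set of boundary sides `S`.
-/

set_option autoImplicit false

open scoped BigOperators

namespace Pool.Agent.Helper39.AG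

/-- the plane -/
abbrev Pt := ℝ × ℝ

/-- twice the signed area of the triangle `a b c` -/
def cr (a b c : Pt) : ℝ := (b.1 - a.1) * (c.2 - a.2) - (b.2 - a.2) * (c.1 - a.1)

/-- A simple polygon: `m + 3` pairwise distinct vertices in cyclic order; two different sides have no common points
except common end points. -/
structure SimplePolygon where
  m : ℕ
  v : Fin (m + 3) → Pt
  inj : Function.Injective v
  simple : ∀ i j, i ≠ j →
    segment ℝ (v i) (v (i + 1)) ∩ segment ℝ (v j) (v (j + 1)) ⊆
      ({v i, v (i + 1)} ∩ {v j, v (j + 1)} : Set Pt)

namespace SimplePolygon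

/-- number of vertices -/
def size (C : SimplePolygon) : ℕ := C.m + 3

/-- the polygonal curve -/
def curve (C : SimplePolygon) : Set Pt := ⋃ i, segment ℝ (C.v i) (C.v (i + 1))

/-- `Q` is the closed region bounded by the simple polygon `C` -/
def IsRegion (C : SimplePolygon) (Q : Set Pt) : Prop :=
  IsCompact Q ∧ closure (interior Q) = Q ∧ frontier Q = C.curve

end SimplePolygon

/-- A polygon with `h` holes: a closed region `Q` bounded by a simple polygon, and `h` pairwise disjoint closed regions
`H i` bounded by simple polygons and contained in the interior of `Q`. -/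
structure PolygonWithHoles (h : ℕ) where
  outer : SimplePolygon
  hole : Fin h → SimplePolygon
  Q : Set Pt
  H : Fin h → Set Pt
  outer_region : outer.IsRegion Q
  hole_region : ∀ i, (hole i).IsRegion (H i)
  disj : ∀ i j, i ≠ j → Disjoint (H i) (H j)
  inside : ∀ i, H i ⊆ interior Q

namespace PolygonWithHoles

variable {h : ℕ}

/-- the point set of the polygon with holes -/
def P (A : PolygonWithHoles h) : Set Pt := A.Q \ ⋃ i, interior (A.H i)

/-- the number of vertices -/
def n (A : PolygonWithHoles h) : ℕ := A.outer.size + ∑ i, (A.hole i).size

open Classical in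
/-- the set of vertices -/
noncomputable def V (A : PolygonWithHoles h) : Finset Pt :=
  Finset.univ.image A.outer.v ∪ Finset.univ.biUnion fun i => Finset.univ.image (A.hole i).v

open Classical in
/-- the set of sides (as two element sets of points) -/
noncomputable def S (A : PolygonWithHoles h) : Finset (Finset Pt) :=
  Finset.univ.image (fun j => {A.outer.v j, A.outer.v (j + 1)}) ∪
    Finset.univ.biUnion fun i => Finset.univ.image (fun j => {(A.hole i).v j, (A.hole i).v (j + 1)})

end PolygonWithHoles

/-- `x` sees `y` in `P` -/
def Sees (P : Set Pt) (x y : Pt) : Prop := segment ℝ x y ⊆ P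

/-- convex hull of a finite set of points -/
def hull (t : Finset Pt) : Set Pt := convexHull ℝ (t : Set Pt)

open Classical in
/-- `T` is a triangulation of `P` with vertex set `V` and set of boundary sides `S`. -/
structure IsTri (V : Finset Pt) (S : Finset (Finset Pt)) (P : Set Pt) (T : Finset (Finset Pt)) : Prop where
  /-- vertices of triangles are in `V` -/
  sub : ∀ t ∈ T, t ⊆ V
  /-- elements of `T` are nondegenerate triangles -/
  three : ∀ t ∈ T, ∃ a b c, t = {a, b, c} ∧ 0 < cr a b c
  /-- the triangles cover exactly `P` -/
  cover : (⋃ t ∈ T, hull t) = P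
  /-- two triangles meet in a common face -/
  inter : ∀ t ∈ T, ∀ t' ∈ T, hull t ∩ hull t' ⊆ hull (t ∩ t')
  /-- the elements of `S` are the sides which belong to exactly one triangle -/
  bdry : ∀ e : Finset Pt, e.card = 2 → (e ∈ S ↔ (T.filter (fun t => e ⊆ t)).card = 1)
  /-- sides have two elements -/
  two : ∀ e ∈ S, e.card = 2
  /-- every vertex is on exactly two boundary sides -/
  vert : ∀ v ∈ V, (S.filter (fun e => v ∈ e)).card = 2

end Pool.Agent.Helper39.AG
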