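import Pool.Agent.Helper39.AG.Basic

/-!
# AG front end: finite planar straight line graphs (nets) and stability of open triangles
-/

set_option autoImplicit false

open Filter Topology

namespace Pool.Agent.Helper39.AG

/-- a finite planar straight line graph -/
structure Net where
  V : Finset Pt
  E : Pt → Pt → Prop
  symm : ∀ {a b}, E a b → E b a
  ne : ∀ {a b}, E a b → a ≠ b
  mem : ∀ {a b}, E a b → a ∈ V
  vtx : ∀ {a b c}, E a b → c ∈ V → c ∈ segment ℝ a b → c = a ∨ c = b
  cross : ∀ {a b c d p}, E a b → E c d → p ∈ segment ℝ a b → p ∈ segment ℝ c d → p ∉ V →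
    (c = a ∧ d = b) ∨ (c = b ∧ d = a)

namespace Net

/-- union of the edges -/
def carrier (N : Net) : Set Pt := {p | ∃ a b, N.E a b ∧ p ∈ segment ℝ a b}

theorem mem' (N : Net) {a b : Pt} (h : N.E a b) : b ∈ N.V := N.mem (N.symm h)

theorem finite_E (N : Net) : {e : Pt × Pt | N.E e.1 e.2}.Finite := by
  apply Set.Finite.subset (N.V ×ˢ N.V).finite_toSet
  intro e he
  simp only [Finset.coe_product, Set.mem_prod, Finset.mem_coe]
  exact ⟨N.mem he, N.mem' he⟩

theorem carrier_eq (N : Net) : N.carrier = ⋃ e ∈ {e : Pt × Pt | N.E e.1 e.2}, segment ℝ e.1 e.2 := by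
  ext p
  simp only [carrier, Set.mem_ofPred_eq, Set.mem_iUnion, exists_prop, Prod.exists]

theorem isClosed_carrier (N : Net) : IsClosed N.carrier := by
  rw [carrier_eq]
  apply N.finite_E.isClosed_biUnion
  intro e _
  have : IsCompact (segment ℝ e.1 e.2) := by
    rw [← convexHull_pair]
    exact (Set.toFinite _).isCompact_convexHull ℝ
  exact this.isClosed

theorem edges_disjoint {N : Net} {x y a b : Pt} (hxy : N.E x y) (hab : N.E a b) (h1 : a ≠ x) (h2 : a ≠ y)
    (h3 : b ≠ x) (h4 : b ≠ y) : Disjoint (segment ℝ x y) (segment ℝ a b) := by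
  rw [Set.disjoint_left]
  intro p hp hq
  by_cases hV : p ∈ N.V
  · rcases N.vtx hxy hV hp with rfl | rfl
    · rcases N.vtx hab hV hq with h | h
      · exact h1 h.symm
      · exact h3 h.symm
    · rcases N.vtx hab hV hq with h | h
      · exact h2 h.symm
      · exact h4 h.symm
  · rcases N.cross hxy hab hp hq hV with h | h
    · exact h1 h.1
    · exact h2 h.1

end Net

/-! ### wedge criteria -/

theorem disj_of_cr_le {x y a b p : Pt} (h : ∀ q ∈ segment ℝ a b, cr x y q ≤ 0) :
    Disjoint (oTri x y p) (segment ℝ a b) := by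
  rw [Set.disjoint_left]
  intro q hq hs
  have := h q hs
  have := hq.1
  linarith

theorem cr_seg {u v a b q : Pt} (hq : q ∈ segment ℝ a b) :
    ∃ α β : ℝ, 0 ≤ α ∧ 0 ≤ β ∧ α + β = 1 ∧ q = α • a + β • b ∧ cr u v q = α * cr u v a + β * cr u v b := by
  obtain ⟨α, β, hα, hβ, hs, rfl⟩ := hq
  exact ⟨α, β, hα, hβ, hs, rfl, cr_comb2 _ _ _ _ _ _ hs⟩

theorem disj_x1 {x y b p : Pt} (h : cr x y b ≤ 0) : Disjoint (oTri x y p) (segment ℝ x b) := by
  apply disj_of_cr_le
  intro q hq
  obtain ⟨α, β, hα, hβ, hs, -, hc⟩ := cr_seg (u := x) (v := y) hq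
  rw [hc]; simp only [cr_self_mid, mul_zero, zero_add]
  exact mul_nonpos_of_nonneg_of_nonpos hβ h

theorem disj_y1 {x y b p : Pt} (h : cr x y b ≤ 0) : Disjoint (oTri x y p) (segment ℝ y b) := by
  apply disj_of_cr_le
  intro q hq
  obtain ⟨α, β, hα, hβ, hs, -, hc⟩ := cr_seg (u := x) (v := y) hq
  rw [hc]; simp only [cr_self_right, mul_zero, zero_add]
  exact mul_nonpos_of_nonneg_of_nonpos hβ h

theorem disj_x2 {x y b p : Pt} (h : cr p x b ≤ 0) : Disjoint (oTri x y p) (segment ℝ x b) := by
  rw [← oTri_cyc, ← oTri_cyc]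
  apply disj_of_cr_le
  intro q hq
  obtain ⟨α, β, hα, hβ, hs, -, hc⟩ := cr_seg (u := p) (v := x) hq
  rw [hc]; simp only [cr_self_right, mul_zero, zero_add]
  exact mul_nonpos_of_nonneg_of_nonpos hβ h

theorem disj_y2 {x y b p : Pt} (h : cr y p b ≤ 0) : Disjoint (oTri x y p) (segment ℝ y b) := by
  rw [← oTri_cyc]
  apply disj_of_cr_le
  intro q hq
  obtain ⟨α, β, hα, hβ, hs, -, hc⟩ := cr_seg (u := y) (v := p) hq
  rw [hc]; simp only [cr_self_mid, mul_zero, zero_add]
  exact mul_nonpos_of_nonneg_of_nonpos hβ h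

theorem oTri_subset_hull {x y p : Pt} : oTri x y p ⊆ convexHull ℝ {x, y, p} := by
  intro q hq
  rw [← cTri_eq_hull (pos_of_mem_oTri hq)]
  exact oTri_subset_cTri _ _ _ hq

theorem isCompact_segment (a b : Pt) : IsCompact (segment ℝ a b) := by
  rw [← convexHull_pair]
  exact (Set.toFinite _).isCompact_convexHull ℝ

theorem sep_stable {x y p0 a b : Pt} (h : Disjoint (convexHull ℝ {x, y, p0}) (segment ℝ a b)) :
    ∀ᶠ p in 𝓝 p0, Disjoint (oTri x y p) (segment ℝ a b) := by
  obtain ⟨f, u, v, hf, huv, hg⟩ := geometric_hahn_banach_compact_closed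
    (convex_convexHull ℝ ({x, y, p0} : Set Pt)) ((Set.toFinite ({x, y, p0} : Set Pt)).isCompact_convexHull ℝ)
    (convex_segment a b) (isCompact_segment a b).isClosed h
  have hp0 : f p0 < u := hf p0 (subset_convexHull ℝ _ (by simp))
  have hx : f x < u := hf x (subset_convexHull ℝ _ (by simp))
  have hy : f y < u := hf y (subset_convexHull ℝ _ (by simp))
  have hev : ∀ᶠ p in 𝓝 p0, f p < u := f.continuous.continuousAt.eventually (gt_mem_nhds hp0)
  filter_upwards [hev] with p hp
  rw [Set.disjoint_left]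
  intro q hq hs
  have h1 : q ∈ {z : Pt | f z < u} := by
    apply convexHull_min _ (convex_halfSpace_lt f.toLinearMap.isLinear u) (oTri_subset_hull hq)
    intro z hz
    simp only [Set.mem_insert_iff, Set.mem_singleton_iff] at hz
    rcases hz with rfl | rfl | rfl
    · exact hx
    · exact hy
    · exact hp
  have h2 := hg q hs
  have h3 : f q < u := h1
  linarith

/-! ### thin triangles -/

theorem thin_x {x y b m : Pt} (hm : m ∈ openSegment ℝ x y) (h : 0 < cr x y b) : cr m x b < 0 := by
  obtain ⟨α, β, hα, hβ, hs, rfl⟩ := hm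
  have h1 : cr (α • x + β • y) x b = cr x b (α • x + β • y) := (cr_cyc _ _ _).symm
  rw [h1, cr_comb2 _ _ _ _ _ _ hs, cr_self_mid, cr_swap']
  have := mul_pos hβ h
  nlinarith

theorem thin_y {x y b m : Pt} (hm : m ∈ openSegment ℝ x y) (h : 0 < cr x y b) : cr y m b < 0 := by
  obtain ⟨α, β, hα, hβ, hs, rfl⟩ := hm
  have h1 : cr y (α • x + β • y) b = - cr y b (α • x + β • y) := cr_swap' _ _ _
  rw [h1, cr_comb2 _ _ _ _ _ _ hs, cr_self_mid, cr_cyc]
  have := mul_pos hα h
  nlinarith

theorem thin_edge {N : Net} {x y a b m : Pt} (hxy : N.E x y) (hab : N.E a b) (hm : m ∈ openSegment ℝ x y) :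
    ∀ᶠ p in 𝓝 m, Disjoint (oTri x y p) (segment ℝ a b) := by
  have key1 : ∀ b : Pt, ∀ᶠ p in 𝓝 m, Disjoint (oTri x y p) (segment ℝ x b) := by
    intro b
    rcases le_or_gt (cr x y b) 0 with h | h
    · exact Eventually.of_forall fun p => disj_x1 h
    · have hc : Continuous fun p => cr p x b := continuous_cr continuous_id continuous_const continuous_const
      have := hc.continuousAt.eventually (gt_mem_nhds (thin_x hm h))
      filter_upwards [this] with p hp
      exact disj_x2 (le_of_lt hp)
  have key2 : ∀ b : Pt, ∀ᶠ p in 𝓝 m, Disjoint (oTri x y p) (segment ℝ y b) := by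
    intro b
    rcases le_or_gt (cr x y b) 0 with h | h
    · exact Eventually.of_forall fun p => disj_y1 h
    · have hc : Continuous fun p => cr y p b := continuous_cr continuous_const continuous_id continuous_const
      have := hc.continuousAt.eventually (gt_mem_nhds (thin_y hm h))
      filter_upwards [this] with p hp
      exact disj_y2 (le_of_lt hp)
  by_cases h1 : a = x
  · subst h1; exact key1 b
  by_cases h2 : a = y
  · subst h2; exact key2 b
  by_cases h3 : b = x
  · subst h3; simpa only [segment_symm ℝ a b] using key1 a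
  by_cases h4 : b = y
  · subst h4; simpa only [segment_symm ℝ a b] using key2 a
  apply sep_stable
  refine Set.disjoint_of_subset_left ?_ (Net.edges_disjoint hxy hab h1 h2 h3 h4)
  apply convexHull_min _ (convex_segment x y)
  intro z hz
  simp only [Set.mem_insert_iff, Set.mem_singleton_iff] at hz
  rcases hz with rfl | rfl | rfl
  · exact left_mem_segment _ _ _
  · exact right_mem_segment _ _ _
  · exact openSegment_subset_segment _ _ _ hm

theorem eventually_carrier {N : Net} {x y p0 : Pt}
    (h : ∀ a b, N.E a b → ∀ᶠ p in 𝓝 p0, Disjoint (oTri x y p) (segment ℝ a b)) :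
    ∀ᶠ p in 𝓝 p0, Disjoint (oTri x y p) N.carrier := by
  have h1 : ∀ᶠ p in 𝓝 p0, ∀ e ∈ {e : Pt × Pt | N.E e.1 e.2}, Disjoint (oTri x y p) (segment ℝ e.1 e.2) := by
    rw [Filter.eventually_all_finite N.finite_E]
    intro e he
    exact h e.1 e.2 he
  filter_upwards [h1] with p hp
  rw [Set.disjoint_left]
  rintro q hq ⟨a, b, hab, hs⟩
  exact Set.disjoint_left.1 (hp (a, b) hab) hq hs

/-- triangles over an edge with the third vertex close to an inner point of the edge meet no edge -/
theorem thin {N : Net} {x y m : Pt} (hxy : N.E x y) (hm : m ∈ openSegment ℝ x y) :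
    ∀ᶠ p in 𝓝 m, Disjoint (oTri x y p) N.carrier :=
  eventually_carrier fun _ _ hab => thin_edge hxy hab hm

/-! ### stability -/

theorem small1 {A B : ℝ} (hA : 0 < A) : ∃ t : ℝ, 0 < t ∧ t < 1 ∧ 0 < (1 - t) * A + t * B := by
  have hD : 0 < A + |B| + 1 := by have := abs_nonneg B; linarith
  refine ⟨A / (A + |B| + 1) / 2, by positivity, ?_, ?_⟩
  · have : A / (A + |B| + 1) < 1 := by
      rw [div_lt_one hD]; have := abs_nonneg B; linarith
    linarith
  · set t := A / (A + |B| + 1) / 2 with ht
    have ht0 : 0 < t := by positivity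
    have h1 : t * (A + |B| + 1) = A / 2 := by rw [ht]; field_simp
    have h2 := neg_abs_le B
    nlinarith

theorem small2 {A B A' B' : ℝ} (hA : 0 < A) (hA' : 0 < A') :
    ∃ t : ℝ, 0 < t ∧ t < 1 ∧ 0 < (1 - t) * A + t * B ∧ 0 < (1 - t) * A' + t * B' := by
  obtain ⟨t, ht0, ht1, h1⟩ := small1 (A := min A A') (B := min B B') (lt_min hA hA')
  refine ⟨t, ht0, ht1, ?_, ?_⟩
  · have h2 := min_le_left A A'
    have h3 := min_le_left B B'
    nlinarith
  · have h2 := min_le_right A A'
    have h3 := min_le_right B B'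
    nlinarith

/-- a segment with end points outside a closed triangle that meets the relative interior of a side and
contains no end point of this side enters the open triangle -/
theorem side_case {u v w a b q : Pt} (hC : 0 < cr u v w) (hq : q ∈ segment ℝ a b) (h0 : cr u v q = 0)
    (h1 : 0 < cr v w q) (h2 : 0 < cr w u q) (ha : a ∉ cTri u v w) (hb : b ∉ cTri u v w)
    (hu : u ∉ segment ℝ a b) (hv : v ∉ segment ℝ a b) : ∃ r ∈ segment ℝ a b, r ∈ oTri u v w := by
  have main : ∀ a : Pt, a ∈ segment ℝ a b → 0 < cr u v a → True := fun _ _ _ => trivial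
  clear main
  have mv : ∀ c ∈ segment ℝ a b, 0 < cr u v c → ∃ r ∈ segment ℝ a b, r ∈ oTri u v w := by
    intro c hc hpos
    obtain ⟨t, ht0, ht1, e1, e2⟩ := small2 (A := cr v w q) (B := cr v w c) (A' := cr w u q) (B' := cr w u c) h1 h2
    refine ⟨(1 - t) • q + t • c, ?_, ?_, ?_, ?_⟩
    · exact convex_segment a b hq hc (by linarith) ht0.le (by ring)
    · rw [cr_comb2 _ _ _ _ _ _ (by ring), h0]; have := mul_pos ht0 hpos; linarith
    · rw [cr_comb2 _ _ _ _ _ _ (by ring)]; exact e1
    · rw [cr_comb2 _ _ _ _ _ _ (by ring)]; exact e2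
  by_cases hfa : 0 < cr u v a
  · exact mv a (left_mem_segment _ _ _) hfa
  by_cases hfb : 0 < cr u v b
  · exact mv b (right_mem_segment _ _ _) hfb
  exfalso
  push Not at hfa hfb
  have hqc : q ∈ cTri u v w := ⟨h0.ge, h1.le, h2.le⟩
  obtain ⟨α, β, hα, hβ, hs, rfl⟩ := hq
  have hα0 : 0 < α := by
    rcases eq_or_lt_of_le hα with h | h
    · exfalso; apply hb
      have : β = 1 := by linarith
      subst this; rw [← h] at hqc; simpa using hqc
    · exact h
  have hβ0 : 0 < β := by
    rcases eq_or_lt_of_le hβ with h | h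
    · exfalso; apply ha
      have : α = 1 := by linarith
      subst this; rw [← h] at hqc; simpa using hqc
    · exact h
  rw [cr_comb2 _ _ _ _ _ _ hs] at h0 h1 h2
  have fa : cr u v a = 0 := by
    have := mul_nonpos_of_nonneg_of_nonpos hβ hfb
    have h3 := mul_nonpos_of_nonneg_of_nonpos hα hfa
    have h4 : α * cr u v a = 0 := by linarith
    exact (mul_eq_zero.1 h4).resolve_left hα0.ne'
  have fb : cr u v b = 0 := by
    rw [fa] at h0
    have h4 : β * cr u v b = 0 := by linarith
    exact (mul_eq_zero.1 h4).resolve_left hβ0.ne'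
  have sa := cr_add u v w a
  have sb := cr_add u v w b
  -- a point of the line `uv` in the segment with vanishing coordinate
  have hv' : ∀ l k : ℝ, 0 ≤ l → 0 ≤ k → l + k = 1 → l * cr v w a + k * cr v w b = 0 → False := by
    intro l k hl hk hlk h
    apply hv
    have e1 : cr u v (l • a + k • b) = 0 := by rw [cr_comb2 _ _ _ _ _ _ hlk, fa, fb]; ring
    have e2 : cr v w (l • a + k • b) = 0 := by rw [cr_comb2 _ _ _ _ _ _ hlk, h]
    have e3 := cr_add u v w (l • a + k • b)
    have e4 : cr w u (l • a + k • b) = cr u v w := by linarith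
    have e5 := bary u v w (l • a + k • b) hC.ne'
    rw [e1, e2, e4, div_self hC.ne'] at e5
    simp only [zero_div, zero_smul, one_smul, zero_add, add_zero] at e5
    exact ⟨l, k, hl, hk, hlk, e5⟩
  have hu' : ∀ l k : ℝ, 0 ≤ l → 0 ≤ k → l + k = 1 → l * cr w u a + k * cr w u b = 0 → False := by
    intro l k hl hk hlk h
    apply hu
    have e1 : cr u v (l • a + k • b) = 0 := by rw [cr_comb2 _ _ _ _ _ _ hlk, fa, fb]; ring
    have e2 : cr w u (l • a + k • b) = 0 := by rw [cr_comb2 _ _ _ _ _ _ hlk, h]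
    have e3 := cr_add u v w (l • a + k • b)
    have e4 : cr v w (l • a + k • b) = cr u v w := by linarith
    have e5 := bary u v w (l • a + k • b) hC.ne'
    rw [e1, e2, e4, div_self hC.ne'] at e5
    simp only [zero_div, zero_smul, one_smul, add_zero] at e5
    exact ⟨l, k, hl, hk, hlk, e5⟩
  have zero_comb : ∀ s r : ℝ, s < 0 → 0 < r → ∃ l k : ℝ, 0 ≤ l ∧ 0 ≤ k ∧ l + k = 1 ∧ l * s + k * r = 0 := by
    intro s r hs hr
    refine ⟨r / (r - s), - s / (r - s), div_nonneg hr.le (by linarith), div_nonneg (by linarith) (by linarith),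
      ?_, ?_⟩
    · rw [← add_div]; exact (div_eq_one_iff_eq (by linarith)).2 (by ring)
    · field_simp; ring
  rcases lt_or_ge (cr v w a) 0 with hva | hva
  · have h5 : 0 < cr v w b := by
      by_contra hcon
      push Not at hcon
      have := mul_neg_of_pos_of_neg hα0 hva
      have := mul_nonpos_of_nonneg_of_nonpos hβ hcon
      linarith
    obtain ⟨l, k, hl, hk, hlk, hz⟩ := zero_comb _ _ hva h5
    exact hv' l k hl hk hlk hz
  · have hwa : cr w u a < 0 := by
      by_contra hcon
      push Not at hcon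
      exact ha ⟨fa.ge, hva, hcon⟩
    have h5 : 0 < cr w u b := by
      by_contra hcon
      push Not at hcon
      have := mul_neg_of_pos_of_neg hα0 hwa
      have := mul_nonpos_of_nonneg_of_nonpos hβ hcon
      linarith
    obtain ⟨l, k, hl, hk, hlk, hz⟩ := zero_comb _ _ hwa h5
    exact hu' l k hl hk hlk hz

end Pool.Agent.Helper39.AG
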