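import Pool.Agent.Helper39.AG.Net

/-!
# AG front end: stability of empty open triangles when the apex moves
-/

set_option autoImplicit false

open Filter Topology

namespace Pool.Agent.Helper39.AG

/-- wedge at `x`: `cr p x b < 0` -/
theorem wedge_x {x y b p : Pt} (hp : 0 < cr x y p) (hd : Disjoint (oTri x y p) (segment ℝ x b))
    (hpb : p ∉ segment ℝ x b) (hb : 0 < cr x y b) (hbT : b ∉ cTri x y p) : cr p x b < 0 := by
  by_contra hcon
  push Not at hcon
  rcases eq_or_lt_of_le hcon with h0 | hpos
  · -- b on the line x p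
    have hs := cr_add x y p b
    rw [← h0] at hs
    have hb5 := bary x y p b hp.ne'
    rw [← h0, zero_div, zero_smul, add_zero] at hb5
    rcases le_or_gt 0 (cr y p b) with h1 | h1
    · exact hbT ⟨hb.le, h1, h0.le⟩
    · apply hpb
      set C := cr x y p with hC
      set s := cr x y b with hsdef
      have h2 : cr y p b = C - s := by linarith
      rw [h2] at hb5 h1
      refine ⟨(s - C) / s, C / s, div_nonneg (by linarith) hb.le, by positivity, ?_, ?_⟩
      · field_simp; ring
      · rw [hb5]
        ext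
        · simp only [Prod.fst_add, Prod.smul_fst, smul_eq_mul]; field_simp; ring
        · simp only [Prod.snd_add, Prod.smul_snd, smul_eq_mul]; field_simp; ring
  · have h1 : 0 < cr y p x := by rw [cr_cyc]; exact hp
    obtain ⟨t, ht0, ht1, e1⟩ := small1 (A := cr y p x) (B := cr y p b) h1
    have hmem : (1 - t) • x + t • b ∉ oTri x y p := fun hm =>
      Set.disjoint_left.1 hd hm ⟨1 - t, t, by linarith, ht0.le, by ring, rfl⟩
    refine hmem ⟨?_, ?_, ?_⟩
    · rw [cr_comb2 _ _ _ _ _ _ (by ring), cr_self_mid]; have := mul_pos ht0 hb; linarith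
    · rw [cr_comb2 _ _ _ _ _ _ (by ring)]; exact e1
    · rw [cr_comb2 _ _ _ _ _ _ (by ring), cr_self_right]; have := mul_pos ht0 hpos; linarith

/-- wedge at `y`: `cr y p b < 0` -/
theorem wedge_y {x y b p : Pt} (hp : 0 < cr x y p) (hd : Disjoint (oTri x y p) (segment ℝ y b))
    (hpb : p ∉ segment ℝ y b) (hb : 0 < cr x y b) (hbT : b ∉ cTri x y p) : cr y p b < 0 := by
  by_contra hcon
  push Not at hcon
  rcases eq_or_lt_of_le hcon with h0 | hpos
  · have hs := cr_add x y p b
    rw [← h0] at hs
    have hb5 := bary x y p b hp.ne'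
    rw [← h0, zero_div, zero_smul, zero_add] at hb5
    rcases le_or_gt 0 (cr p x b) with h1 | h1
    · exact hbT ⟨hb.le, h0.le, h1⟩
    · apply hpb
      set C := cr x y p with hC
      set s := cr x y b with hsdef
      have h2 : cr p x b = C - s := by linarith
      rw [h2] at hb5 h1
      refine ⟨(s - C) / s, C / s, div_nonneg (by linarith) hb.le, by positivity, ?_, ?_⟩
      · field_simp; ring
      · rw [hb5]
        ext
        · simp only [Prod.fst_add, Prod.smul_fst, smul_eq_mul]; field_simp; ring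
        · simp only [Prod.snd_add, Prod.smul_snd, smul_eq_mul]; field_simp; ring
  · have h1 : 0 < cr p x y := by rw [cr_cyc']; exact hp
    obtain ⟨t, ht0, ht1, e1⟩ := small1 (A := cr p x y) (B := cr p x b) h1
    have hmem : (1 - t) • y + t • b ∉ oTri x y p := fun hm =>
      Set.disjoint_left.1 hd hm ⟨1 - t, t, by linarith, ht0.le, by ring, rfl⟩
    refine hmem ⟨?_, ?_, ?_⟩
    · rw [cr_comb2 _ _ _ _ _ _ (by ring), cr_self_right]; have := mul_pos ht0 hb; linarith
    · rw [cr_comb2 _ _ _ _ _ _ (by ring), cr_self_mid]; have := mul_pos ht0 hpos; linarith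
    · rw [cr_comb2 _ _ _ _ _ _ (by ring)]; exact e1

theorem mem_segment_of_cr {x y p a : Pt} (hp : 0 < cr x y p) (ha : a ∈ cTri x y p) (h0 : cr x y a = 0) :
    a ∈ segment ℝ x y := by
  have hb := bary x y p a hp.ne'
  have hs := bary_sum x y p a hp.ne'
  rw [h0, zero_div, zero_smul, add_zero] at hb
  rw [h0, zero_div, add_zero] at hs
  exact ⟨_, _, div_nonneg ha.2.1 hp.le, div_nonneg ha.2.2 hp.le, hs, hb.symm⟩

theorem stable_edge {N : Net} {x y a b p : Pt} (hxy : N.E x y) (hab : N.E a b) (hp : 0 < cr x y p)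
    (hd : Disjoint (oTri x y p) (segment ℝ a b)) (hpa : p ∉ segment ℝ a b)
    (hV : ∀ v ∈ N.V, v ∈ cTri x y p → cr x y v ≤ 0) :
    ∀ᶠ p' in 𝓝 p, Disjoint (oTri x y p') (segment ℝ a b) := by
  have notT : ∀ v ∈ N.V, 0 < cr x y v → v ∉ cTri x y p := fun v hv h hT => by
    have := hV v hv hT; linarith
  have key1 : ∀ b : Pt, b ∈ N.V → Disjoint (oTri x y p) (segment ℝ x b) → p ∉ segment ℝ x b →
      ∀ᶠ p' in 𝓝 p, Disjoint (oTri x y p') (segment ℝ x b) := by
    intro b hbV hd hpb
    rcases le_or_gt (cr x y b) 0 with h | h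
    · exact Eventually.of_forall fun p => disj_x1 h
    · have hc : Continuous fun p => cr p x b := continuous_cr continuous_id continuous_const continuous_const
      have := hc.continuousAt.eventually (gt_mem_nhds (wedge_x hp hd hpb h (notT b hbV h)))
      filter_upwards [this] with p hp
      exact disj_x2 (le_of_lt hp)
  have key2 : ∀ b : Pt, b ∈ N.V → Disjoint (oTri x y p) (segment ℝ y b) → p ∉ segment ℝ y b →
      ∀ᶠ p' in 𝓝 p, Disjoint (oTri x y p') (segment ℝ y b) := by
    intro b hbV hd hpb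
    rcases le_or_gt (cr x y b) 0 with h | h
    · exact Eventually.of_forall fun p => disj_y1 h
    · have hc : Continuous fun p => cr y p b := continuous_cr continuous_const continuous_id continuous_const
      have := hc.continuousAt.eventually (gt_mem_nhds (wedge_y hp hd hpb h (notT b hbV h)))
      filter_upwards [this] with p hp
      exact disj_y2 (le_of_lt hp)
  have haV := N.mem hab
  have hbV := N.mem' hab
  by_cases h1 : a = x
  · subst h1; exact key1 b hbV hd hpa
  by_cases h2 : a = y
  · subst h2; exact key2 b hbV hd hpa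
  by_cases h3 : b = x
  · subst h3
    rw [segment_symm ℝ a b] at hd hpa ⊢
    exact key1 a haV hd hpa
  by_cases h4 : b = y
  · subst h4
    rw [segment_symm ℝ a b] at hd hpa ⊢
    exact key2 a haV hd hpa
  -- no common vertex
  have hE := Net.edges_disjoint hxy hab h1 h2 h3 h4
  have hxs : x ∉ segment ℝ a b := fun h => Set.disjoint_left.1 hE (left_mem_segment _ _ _) h
  have hys : y ∉ segment ℝ a b := fun h => Set.disjoint_left.1 hE (right_mem_segment _ _ _) h
  have outside : ∀ v ∈ N.V, v ∈ segment ℝ a b → v ∉ cTri x y p := by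
    intro v hv hs hT
    have h5 := hV v hv hT
    have h6 : cr x y v = 0 := le_antisymm h5 hT.1
    exact Set.disjoint_left.1 hE (mem_segment_of_cr hp hT h6) hs
  have haT := outside a haV (left_mem_segment _ _ _)
  have hbT := outside b hbV (right_mem_segment _ _ _)
  apply sep_stable
  rw [← cTri_eq_hull hp, Set.disjoint_left]
  intro q hq hs
  rcases eq_or_lt_of_le hq.1 with h0 | hpos1
  · exact Set.disjoint_left.1 hE (mem_segment_of_cr hp hq h0.symm) hs
  rcases eq_or_lt_of_le hq.2.1 with h0 | hpos2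
  · rcases eq_or_lt_of_le hq.2.2 with h0' | hpos3
    · -- q = p
      have hb := bary x y p q hp.ne'
      have hsum := cr_add x y p q
      rw [← h0, ← h0'] at hb hsum
      have h7 : cr x y q = cr x y p := by linarith
      rw [h7, div_self hp.ne'] at hb
      simp only [zero_div, zero_smul, one_smul, zero_add] at hb
      exact hpa (hb ▸ hs)
    · -- side y p
      obtain ⟨r, hr, hr'⟩ := side_case (u := y) (v := p) (w := x) (a := a) (b := b) (q := q)
        (by rw [cr_cyc]; exact hp) hs h0.symm hpos3 hpos1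
        (by rw [cTri_cyc]; exact haT) (by rw [cTri_cyc]; exact hbT) hys hpa
      exact Set.disjoint_left.1 hd (by rw [← oTri_cyc]; exact hr') hr
  rcases eq_or_lt_of_le hq.2.2 with h0' | hpos3
  · -- side p x
    obtain ⟨r, hr, hr'⟩ := side_case (u := p) (v := x) (w := y) (a := a) (b := b) (q := q)
      (by rw [cr_cyc']; exact hp) hs h0'.symm hpos1 hpos2
      (by rw [cTri_cyc, cTri_cyc]; exact haT) (by rw [cTri_cyc, cTri_cyc]; exact hbT) hpa hxs
    exact Set.disjoint_left.1 hd (by rw [← oTri_cyc, ← oTri_cyc]; exact hr') hr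
  · exact Set.disjoint_left.1 hd ⟨hpos1, hpos2, hpos3⟩ hs

/-- parametrisation of a line -/
theorem line_param {a b z : Pt} (hab : a ≠ b) (h : cr a b z = 0) : ∃ ζ : ℝ, z = (1 - ζ) • a + ζ • b := by
  rw [cr_def] at h
  by_cases h1 : b.1 - a.1 = 0
  · have h2 : b.2 - a.2 ≠ 0 := by
      intro h2
      apply hab
      ext
      · linarith
      · linarith
    refine ⟨(z.2 - a.2) / (b.2 - a.2), ?_⟩
    rw [h1] at h
    have h3 : z.1 - a.1 = 0 := by
      have : (b.2 - a.2) * (z.1 - a.1) = 0 := by linarith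
      exact (mul_eq_zero.1 this).resolve_left h2
    ext
    · simp only [Prod.fst_add, Prod.smul_fst, smul_eq_mul]
      field_simp
      linear_combination (b.2 - a.2) * h3 - (z.2 - a.2) * h1
    · simp only [Prod.snd_add, Prod.smul_snd, smul_eq_mul]
      field_simp
      ring
  · refine ⟨(z.1 - a.1) / (b.1 - a.1), ?_⟩
    ext
    · simp only [Prod.fst_add, Prod.smul_fst, smul_eq_mul]
      field_simp
      ring
    · simp only [Prod.snd_add, Prod.smul_snd, smul_eq_mul]
      field_simp
      linear_combination h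

theorem cr_zero_of_line {a b x y p : Pt} (hab : a ≠ b) (hx : cr a b x = 0) (hy : cr a b y = 0) (hp : cr a b p = 0) :
    cr x y p = 0 := by
  obtain ⟨s, rfl⟩ := line_param hab hx
  obtain ⟨t, rfl⟩ := line_param hab hy
  obtain ⟨r, rfl⟩ := line_param hab hp
  simp only [cr_def, Prod.fst_add, Prod.smul_fst, smul_eq_mul, Prod.snd_add, Prod.smul_snd]
  ring

theorem apex_cross {x y a b p : Pt} (hab : a ≠ b) (hp : 0 < cr x y p)
    (hd : Disjoint (oTri x y p) (segment ℝ a b)) (hpo : p ∈ openSegment ℝ a b)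
    (hx : 0 < cr a b x) (hy : cr a b y < 0) : False := by
  obtain ⟨α, β, hα, hβ, hs, hpe⟩ := hpo
  set A := cr a b x with hA
  set B := cr a b y with hB
  have hAB : 0 < A - B := by linarith
  set z : Pt := (-B / (A - B)) • x + (A / (A - B)) • y with hz
  have hsum : -B / (A - B) + A / (A - B) = 1 := by
    rw [← add_div]; exact (div_eq_one_iff_eq hAB.ne').2 (by ring)
  have hz0 : cr a b z = 0 := by
    rw [hz, cr_comb2 _ _ _ _ _ _ hsum, ← hA, ← hB]; field_simp; ring
  obtain ⟨ζ, hζ⟩ := line_param hab hz0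
  obtain ⟨t, ht0, ht1, e1, e2⟩ := small2 (A := β) (B := ζ) (A' := α) (B' := 1 - ζ) hβ hα
  have hq1 : (t * (-B / (A - B))) • x + (t * (A / (A - B))) • y + (1 - t) • p ∈ oTri x y p := by
    apply comb_mem_oTri hp
    · exact mul_pos ht0 (div_pos (by linarith) hAB)
    · exact mul_pos ht0 (div_pos (by linarith) hAB)
    · linarith
    · rw [← mul_add, hsum]; ring
  have hq2 : (t * (-B / (A - B))) • x + (t * (A / (A - B))) • y + (1 - t) • p = (1 - t) • p + t • z := by
    rw [hz, smul_add, smul_smul, smul_smul]; abel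
  rw [hq2] at hq1
  refine Set.disjoint_left.1 hd hq1 ⟨(1 - t) * α + t * (1 - ζ), (1 - t) * β + t * ζ, e2.le, e1.le, ?_, ?_⟩
  · linear_combination (1 - t) * hs
  · rw [hζ, ← hpe]
    ext
    · simp only [Prod.fst_add, Prod.smul_fst, smul_eq_mul]; ring
    · simp only [Prod.snd_add, Prod.smul_snd, smul_eq_mul]; ring

theorem cr_swap_ab (a b z : Pt) : cr b a z = - cr a b z := cr_swap a b z

/-- the apex is an inner point of the segment `a b` and the open triangle does not meet the segment: then `x`, `y` are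
weakly on one side of the line, not both on it -/
theorem apex_on_edge {x y a b p : Pt} (hab : a ≠ b) (hp : 0 < cr x y p)
    (hd : Disjoint (oTri x y p) (segment ℝ a b)) (hpo : p ∈ openSegment ℝ a b) :
    (0 ≤ cr a b x ∧ 0 ≤ cr a b y ∧ 0 < cr a b x + cr a b y) ∨
      (cr a b x ≤ 0 ∧ cr a b y ≤ 0 ∧ cr a b x + cr a b y < 0) := by
  have hpo' : p ∈ openSegment ℝ b a := by rw [openSegment_symm]; exact hpo
  have hd' : Disjoint (oTri x y p) (segment ℝ b a) := by rw [segment_symm]; exact hd
  have hp0 : cr a b p = 0 := by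
    obtain ⟨α, β, hα, hβ, hs, hpe⟩ := hpo
    rw [← hpe, cr_comb2 _ _ _ _ _ _ hs]; simp
  rcases lt_trichotomy (cr a b x) 0 with hx | hx | hx <;> rcases lt_trichotomy (cr a b y) 0 with hy | hy | hy
  · right; refine ⟨hx.le, hy.le, by linarith⟩
  · right; refine ⟨hx.le, hy.le, by linarith⟩
  · exfalso
    exact apex_cross hab.symm hp hd' hpo' (by rw [cr_swap_ab]; linarith) (by rw [cr_swap_ab]; linarith)
  · right; refine ⟨hx.le, hy.le, by linarith⟩
  · exfalso; have := cr_zero_of_line hab hx hy hp0; linarith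
  · left; refine ⟨hx.ge, hy.le, by linarith⟩
  · exfalso
    exact apex_cross hab hp hd hpo hx hy
  · left; refine ⟨hx.le, hy.ge, by linarith⟩
  · left; refine ⟨hx.le, hy.le, by linarith⟩

/-- moving the apex along an edge -/
theorem stable_on_edge {x y a b p p' : Pt} (hab : a ≠ b) (hp : 0 < cr x y p)
    (hd : Disjoint (oTri x y p) (segment ℝ a b)) (hpo : p ∈ openSegment ℝ a b) (hp' : cr a b p' = 0) :
    Disjoint (oTri x y p') (segment ℝ a b) := by
  rw [Set.disjoint_left]
  intro q hq hs
  have hC := pos_of_mem_oTri hq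
  have hb := bary x y p' q hC.ne'
  have hsum := bary_sum x y p' q hC.ne'
  have h0 : cr a b q = 0 := by
    obtain ⟨α, β, hα, hβ, hs, hpe⟩ := hs
    rw [← hpe, cr_comb2 _ _ _ _ _ _ hs]; simp
  have e1 : 0 < cr y p' q / cr x y p' := div_pos hq.2.1 hC
  have e2 : 0 < cr p' x q / cr x y p' := div_pos hq.2.2 hC
  rw [hb, cr_comb3 _ _ _ _ _ _ _ _ hsum, hp', mul_zero, add_zero] at h0
  rcases apex_on_edge hab hp hd hpo with ⟨h1, h2, h3⟩ | ⟨h1, h2, h3⟩
  · rcases eq_or_lt_of_le h1 with h4 | h4
    · have h5 : 0 < cr a b y := by linarith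
      have := mul_pos e2 h5
      rw [← h4] at h0; linarith
    · have := mul_pos e1 h4
      have := mul_nonneg e2.le h2
      linarith
  · rcases eq_or_lt_of_le h1 with h4 | h4
    · have h5 : cr a b y < 0 := by linarith
      have := mul_neg_of_pos_of_neg e2 h5
      rw [h4] at h0; linarith
    · have := mul_neg_of_pos_of_neg e1 h4
      have := mul_nonpos_of_nonneg_of_nonpos e2.le h2
      linarith

end Pool.Agent.Helper39.AG
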